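import Pool.Agent.Lib.MP_1dc4d0_coA6.Main
import Pool.Agent.Lib.MP_1dc4d0_coA6.Trans

/-!
# MP_1dc4d0_co: two perfect matchings without common odd cut, at most six odd components
-/

set_option autoImplicit false

namespace Pool.Agent.Results.MP_1dc4d0_co.OddnessSix

open Pool.Agent.Lib.MP_1dc4d0_coA6

/-- Let `F` be a set of edges of a bridgeless cubic multigraph which has odd degree at every vertex
(for instance a perfect matching), such that at most six components of `(V, E - F)` have an odd number
of vertices. Then every edge `e₀` lies in a perfect matching `M` such that `F ∩ M` contains no odd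
edge cut. -/
theorem result (V E : Type) [Fintype V] [Fintype E] (ends : E → Sym2 V)
    (hloop : ∀ e : E, ∃ x y : V, x ≠ y ∧ x ∈ ends e ∧ y ∈ ends e)
    (hcubic : ∀ v : V, {e : E | v ∈ ends e}.ncard = 3)
    (hbridge : ∀ (S : Set V) (b : E), ¬ (∀ e : E, Crosses ends S e ↔ e = b))
    (F : Set E) (hF : ∀ v : V, Odd {e : E | e ∈ F ∧ v ∈ ends e}.ncard)
    (hodd : (oddComponents ends F).ncard ≤ 6) (e₀ : E) :
    ∃ M : Set E, (∀ v : V, ∃! e : E, e ∈ M ∧ v ∈ ends e) ∧ e₀ ∈ M ∧
      ∀ S : Set V, Odd {e : E | Crosses ends S e}.ncard →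
        ¬ (∀ e : E, Crosses ends S e → e ∈ F ∧ e ∈ M) :=
  translate (fun V _ G F hI d hd => main_dart G F hI d hd) V E ends hloop hcubic hbridge F hF hodd e₀

end Pool.Agent.Results.MP_1dc4d0_co.OddnessSix
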