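import Pool.Agent.Lib.MP_1dc4d0_coE.Bridge

/-!
# MP_1dc4d0_co: sparse intersections without small odd cuts; the question for fewer than 70
vertices
-/

set_option autoImplicit false

namespace Pool.Agent.Results.MP_1dc4d0_co.SparseIntersection

open Pool.Agent.MP_1dc4d0_coE

/-- Every bridgeless cubic multigraph with `n` vertices has two perfect matchings whose
intersection has at most `n / 10` edges and contains no odd cut with at most five edges. If
`n < 70`, the intersection contains no odd cut at all. -/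
theorem result (V E : Type) [Fintype V] [Fintype E] (ends : E → Sym2 V)
    (h : BridgelessCubic ends) :
    ∃ M₁ M₂ : Set E, IsPM ends M₁ ∧ IsPM ends M₂ ∧
      10 * (M₁ ∩ M₂).ncard ≤ Fintype.card V ∧
      (∀ S : Set V, Odd (edgeCut ends S).ncard → edgeCut ends S ⊆ M₁ ∩ M₂ →
        7 ≤ (edgeCut ends S).ncard) ∧
      (Fintype.card V < 70 → ∀ S : Set V, Odd (edgeCut ends S).ncard →
        ¬ edgeCut ends S ⊆ M₁ ∩ M₂) := by
  classical
  have hC := toCubic h
  obtain ⟨M₁, M₂, h1, h2, h3, h4⟩ := sparse hC
  have hcut : ∀ S : Set V, edgeCut ends S = (cut (fs ends) (sn ends) S.toFinset : Set E) := by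
    intro S
    rw [← edgeCut_eq, Set.coe_toFinset]
  have key : ∀ S : Set V, Odd (edgeCut ends S).ncard →
      edgeCut ends S ⊆ (M₁ : Set E) ∩ (M₂ : Set E) → 7 ≤ (edgeCut ends S).ncard := by
    intro S hodd hsub
    rw [hcut, Set.ncard_coe_finset] at hodd ⊢
    apply h4 _ ((hC.odd_iff _).1 hodd)
    rw [hcut, ← Finset.coe_inter, Finset.coe_subset] at hsub
    exact hsub
  refine ⟨M₁, M₂, (isPM_iff h M₁).2 h1, (isPM_iff h M₂).2 h2, ?_, key, ?_⟩
  · rw [← Finset.coe_inter, Set.ncard_coe_finset]
    exact h3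
  · intro hn S hodd hsub
    have h7 := key S hodd hsub
    have hle : (edgeCut ends S).ncard ≤ (M₁ ∩ M₂).card := by
      rw [← Set.ncard_coe_finset]
      apply Set.ncard_le_ncard _ (Set.toFinite _)
      rw [Finset.coe_inter]
      exact hsub
    omega

end Pool.Agent.Results.MP_1dc4d0_co.SparseIntersection
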