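import Pool.Agent.Lib.MP_1dc4d0_coE.Bridge

/-!
# MP_1dc4d0_co: weighted form, and a sufficient condition for two given matchings to work
-/

set_option autoImplicit false

namespace Pool.Agent.Results.MP_1dc4d0_co.WeightedIntersection

open Pool.Agent.MP_1dc4d0_coE

/-- Let `M₁` be a perfect matching of a bridgeless cubic multigraph containing no odd cut with
fewer than `c` edges, and let `y ≥ 0` be weights on the edges. There is a perfect matching `M₂`
with `c * y(M₁ ∩ M₂) ≤ y(M₁)` such that `M₁ ∩ M₂` contains no odd cut with at most `c` edges;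
if `y(M₁) < c` and every odd cut inside `M₁` with more than `c` edges has weight at least one,
then `M₁ ∩ M₂` contains no odd cut. -/
theorem result (V E : Type) [Fintype V] [Fintype E] (ends : E → Sym2 V)
    (h : BridgelessCubic ends) (M₁ : Set E) (h₁ : IsPM ends M₁) (c : ℕ)
    (hc : ∀ S : Set V, Odd (edgeCut ends S).ncard → edgeCut ends S ⊆ M₁ →
      c ≤ (edgeCut ends S).ncard)
    (y : E → ℝ) (hy : ∀ e, 0 ≤ y e) :
    ∃ M₂ : Set E, IsPM ends M₂ ∧
      (c : ℝ) * ∑ᶠ e ∈ M₁ ∩ M₂, y e ≤ ∑ᶠ e ∈ M₁, y e ∧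
      (∀ S : Set V, Odd (edgeCut ends S).ncard → edgeCut ends S ⊆ M₁ ∩ M₂ →
        c < (edgeCut ends S).ncard) ∧
      (∑ᶠ e ∈ M₁, y e < c →
        (∀ S : Set V, Odd (edgeCut ends S).ncard → edgeCut ends S ⊆ M₁ →
          c < (edgeCut ends S).ncard → 1 ≤ ∑ᶠ e ∈ edgeCut ends S, y e) →
        ∀ S : Set V, Odd (edgeCut ends S).ncard → ¬ edgeCut ends S ⊆ M₁ ∩ M₂) := by
  classical
  have hC := toCubic h
  have hcut : ∀ S : Set V, edgeCut ends S = (cut (fs ends) (sn ends) S.toFinset : Set E) := by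
    intro S
    rw [← edgeCut_eq, Set.coe_toFinset]
  obtain ⟨N₁, rfl⟩ : ∃ N₁ : Finset E, (N₁ : Set E) = M₁ := ⟨M₁.toFinset, by simp⟩
  have hN₁ := (isPM_iff h N₁).1 h₁
  have hc' : ∀ X : Finset V, Odd X.card → cut (fs ends) (sn ends) X ⊆ N₁ →
      c ≤ (cut (fs ends) (sn ends) X).card := by
    intro X hX hsub
    have h1 := hc (X : Set V)
    rw [edgeCut_eq, Set.ncard_coe_finset, Finset.coe_subset] at h1
    exact h1 ((hC.odd_iff X).2 hX) hsub
  obtain ⟨N₂, hN₂, hw, hX⟩ := weighted hC N₁ hN₁ c hc' y hy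
  have key : ∀ S : Set V, Odd (edgeCut ends S).ncard →
      edgeCut ends S ⊆ (N₁ : Set E) ∩ (N₂ : Set E) → c < (edgeCut ends S).ncard := by
    intro S hodd hsub
    rw [hcut, Set.ncard_coe_finset] at hodd ⊢
    apply hX _ ((hC.odd_iff _).1 hodd)
    rw [hcut, ← Finset.coe_inter, Finset.coe_subset] at hsub
    exact hsub
  have hsum : (c : ℝ) * ∑ᶠ e ∈ (N₁ : Set E) ∩ (N₂ : Set E), y e ≤ ∑ᶠ e ∈ (N₁ : Set E), y e := by
    rw [← Finset.coe_inter, finsum_mem_coe_finset, finsum_mem_coe_finset]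
    exact hw
  refine ⟨N₂, (isPM_iff h N₂).2 hN₂, hsum, key, ?_⟩
  intro hlt hcov S hodd hsub
  have h1 := key S hodd hsub
  have h2 := hcov S hodd (hsub.trans Set.inter_subset_left) h1
  have h3 : ∑ᶠ e ∈ edgeCut ends S, y e ≤ ∑ᶠ e ∈ (N₁ : Set E) ∩ (N₂ : Set E), y e := by
    rw [hcut] at hsub ⊢
    rw [← Finset.coe_inter, Finset.coe_subset] at hsub
    rw [← Finset.coe_inter, finsum_mem_coe_finset, finsum_mem_coe_finset]
    exact Finset.sum_le_sum_of_subset_of_nonneg hsub (fun e _ _ => hy e)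
  have h4 : (0 : ℝ) ≤ (c : ℝ) := Nat.cast_nonneg c
  nlinarith

end Pool.Agent.Results.MP_1dc4d0_co.WeightedIntersection
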